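import Pool.Agent.SGY.Stmts
import Pool.Agent.Helper39_SGP.SRT

/-!
# Squad SGY, row STC (helper79): an edit of `Pool/Agent/Helper56_SGP/STA.lean`
-/

set_option autoImplicit false

namespace Pool.Agent.SGY.H79

open Pool.Agent.SGE Pool.Agent.SGP Pool.Agent.SGY

theorem o_rot (p q r : ℝ × ℝ) : o p q r = o q r p := by
  unfold o
  ring

theorem o_swap (p q r : ℝ × ℝ) : o p q r = -o p r q := by
  unfold o
  ring

theorem o_self2 (p q : ℝ × ℝ) : o p q q = 0 := by
  unfold o
  ring

theorem o_self13 (p q : ℝ × ℝ) : o p q p = 0 := by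
  unfold o
  ring

theorem stc0 (srt : SrtStmt) : StcStmt := by
  intro V _ _ a b c E E' F F' P p v q mid Q f N C G
  set Z := P ++ p :: (mid ++ q :: Q) with hZ
  -- distinct corners
  have hnd := N.nd
  have hac : a ≠ c := by
    simp only [List.nodup_cons, List.mem_cons, List.not_mem_nil, or_false, not_or] at hnd
    exact hnd.1.1
  have hab : a ≠ b := N.ab
  have hcb : c ≠ b := by
    simp only [List.nodup_cons, List.mem_cons, List.not_mem_nil, or_false, not_or] at hnd
    exact hnd.2.1
  -- elements of the contour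
  have haZ : a ∈ Z := List.mem_of_head? C.hd
  have hbZ : b ∈ Z := List.mem_of_getLast? C.ls
  have hZE : ∀ y ∈ Z, E' c y := fun y hy => (C.nc' y).2 hy
  have hZR : ∀ y ∈ Z, Rel E' y := fun y hy => ⟨c, C.nt.sym _ _ (hZE y hy)⟩
  have hZc : ∀ y ∈ Z, y ≠ c := by
    rintro y hy rfl
    exact C.nt.irr _ (hZE _ hy)
  have hRv : ∀ y, Rel E' y → y ≠ v := by
    rintro y ⟨t, ht⟩ rfl
    exact C.iso t ht
  have hRc : Rel E' c := ⟨a, hZE a haZ⟩
  have hRa : Rel E' a := hZR a haZ
  have hRb : Rel E' b := hZR b hbZ
  -- the elements of `Z` are in the angle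
  have hzb : ∀ y ∈ Z, y ≠ b → 0 < o (f c) (f y) (f b) := by
    intro y hy hyb
    by_cases hya : y = a
    · subst hya
      rw [o_rot]
      exact G.tri
    · have h1 := (G.ins y ⟨hya, hyb, hZc y hy, hZR y hy⟩).2.1
      rw [o_rot] at h1
      exact h1
  have hza : ∀ y ∈ Z, 0 ≤ o (f c) (f a) (f y) := by
    intro y hy
    by_cases hya : y = a
    · subst hya
      rw [o_self2]
    · by_cases hyb : y = b
      · subst hyb
        rw [o_rot]
        exact G.tri.le
      · exact (G.ins y ⟨hya, hyb, hZc y hy, hZR y hy⟩).2.2.le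
  have hzb' : ∀ y ∈ Z, 0 ≤ o (f c) (f y) (f b) := by
    intro y hy
    by_cases hyb : y = b
    · subst hyb
      rw [o_self2]
    · exact (hzb y hy hyb).le
  -- sorted
  have hsort : Z.Pairwise (fun x y => 0 < o (f c) (f x) (f y)) := by
    have h1 : (Z.map f).IsChain (fun x y => 0 < o (f c) x y) := by
      rw [List.isChain_map]
      exact C.ch.imp fun x y hxy => by
        have h2 := G.fac x y c hxy
        rw [o_rot, o_rot] at h2
        exact h2
    have h2 := srt (f c) (f b) (Z.map f) h1 (by
      intro y hy hyb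
      obtain ⟨z, hz, rfl⟩ := List.mem_map.1 hy
      exact hzb z hz (fun h => hyb (by rw [h])))
    rwa [List.pairwise_map] at h2
  rw [hZ, List.pairwise_append, List.pairwise_cons, List.pairwise_append,
    List.pairwise_cons] at hsort
  obtain ⟨_, ⟨hp, _, ⟨hq, _⟩, hm⟩, hP⟩ := hsort
  have hpq : 0 < o (f c) (f p) (f q) := hp q (by simp)
  refine ⟨hpq, ?_⟩
  intro X hX
  have hpZ : p ∈ Z := by simp [hZ]
  have hqZ : q ∈ Z := by simp [hZ]
  have hgv : Function.update f v X v = X := Function.update_self v X f
  have hg : ∀ x, x ≠ v → Function.update f v X x = f x := fun x hx =>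
    Function.update_of_ne hx X f
  have hgR : ∀ x, Rel E' x → Function.update f v X x = f x := fun x hx => hg x (hRv x hx)
  -- orientation with `X`
  have hX0 : ∀ y z, Rel E' y → Rel E' z → y ≠ z → o X (f y) (f z) ≠ 0 := by
    intro y z hy hz hyz
    by_cases hyc : y = c
    · subst hyc
      rw [o_rot]
      exact hX.gen z hz (Ne.symm hyz)
    · by_cases hzc : z = c
      · subst hzc
        rw [o_rot, o_rot, o_swap]
        intro h
        exact hX.gen y hy hyc (neg_eq_zero.1 h)
      · intro h
        have := hX.near y z hy hz hyc hzc hyz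
        rw [h, zero_mul] at this
        exact lt_irrefl _ this
  have hrel : ∀ x, Rel E x → x ≠ v → Rel E' x := by
    intro x hx hxv
    rcases (C.rel x).1 hx with h | h
    · exact absurd h hxv
    · exact h
  refine ⟨?_, ?_, ?_, ?_⟩
  · -- gp
    intro x y z hx hy hz hxy hxz hyz
    by_cases hxv : x = v
    · subst hxv
      have hy' := hrel y hy (Ne.symm hxy)
      have hz' := hrel z hz (Ne.symm hxz)
      rw [hgv, hgR y hy', hgR z hz']
      exact hX0 y z hy' hz' hyz
    · by_cases hyv : y = v
      · subst hyv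
        have hx' := hrel x hx hxy
        have hz' := hrel z hz (Ne.symm hyz)
        rw [hgv, hgR x hx', hgR z hz', o_rot]
        exact hX0 z x hz' hx' (Ne.symm hxz)
      · by_cases hzv : z = v
        · subst hzv
          have hx' := hrel x hx hxz
          have hy' := hrel y hy hyz
          rw [hgv, hgR x hx', hgR y hy', o_rot, o_rot]
          exact hX0 x y hx' hy' hxy
        · have hx' := hrel x hx hxv
          have hy' := hrel y hy hyv
          have hz' := hrel z hz hzv
          rw [hgR x hx', hgR y hy', hgR z hz']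
          exact G.gp x y z hx' hy' hz' hxy hxz hyz
  · -- tri
    rw [hgR a hRa, hgR b hRb, hgR c hRc]
    exact G.tri
  · -- ins
    intro x hx
    by_cases hxv : x = v
    · subst hxv
      rw [hgv, hgR a hRa, hgR b hRb, hgR c hRc]
      refine ⟨?_, ?_, ?_⟩
      · have h1 := hX.near a b hRa hRb hac (Ne.symm hcb) hab
        have h2 : 0 < o (f c) (f a) (f b) := by
          rw [o_rot]
          exact G.tri
        have h3 : 0 < o X (f a) (f b) := (pos_iff_pos_of_mul_pos h1).2 h2
        rw [o_rot, o_rot]
        exact h3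
      · rw [o_rot]
        exact hX.lt b hRb (Ne.symm hcb) (hzb' p hpZ) (hzb' q hqZ)
      · exact hX.rt a hRa hac (hza p hpZ) (hza q hqZ)
    · have hx' := hrel x hx.2.2.2 hxv
      rw [hgR a hRa, hgR b hRb, hgR c hRc, hgR x hx']
      exact G.ins x ⟨hx.1, hx.2.1, hx.2.2.1, hx'⟩
  · -- fac
    have hv : ∀ x y, F x y v → 0 < o (Function.update f v X x) (Function.update f v X y) X := by
      intro x y h
      rcases C.f1 x y h with ⟨hxc, hyc, h'⟩ | ⟨hxc, hyp⟩ | ⟨hxq, hyc⟩
      · have hE := C.nt.fe _ _ _ h'
        have hx' : Rel E' x := ⟨y, hE⟩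
        have hy' : Rel E' y := ⟨x, C.nt.sym _ _ hE⟩
        have hxy : x ≠ y := by
          rintro rfl
          exact C.nt.irr _ hE
        rw [hgR x hx', hgR y hy']
        have h1 := hX.near x y hx' hy' hxc hyc hxy
        have h2 : 0 < o (f c) (f x) (f y) := by
          have := G.fac x y c h'
          rw [o_rot, o_rot] at this
          exact this
        have h3 : 0 < o X (f x) (f y) := (pos_iff_pos_of_mul_pos h1).2 h2
        rw [o_rot, o_rot]
        exact h3
      · rw [hxc, hyp, hgR c hRc, hgR p (hZR p hpZ)]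
        exact hX.rt p (hZR p hpZ) (hZc p hpZ) (by rw [o_self2]) hpq.le
      · rw [hxq, hyc, hgR c hRc, hgR q (hZR q hqZ), o_rot]
        exact hX.lt q (hZR q hqZ) (hZc q hqZ) hpq.le (by rw [o_self2])
    intro x y z h
    by_cases hzv : z = v
    · subst hzv
      rw [hgv]
      exact hv x y h
    · by_cases hxv : x = v
      · subst hxv
        have h1 := hv y z (N.rot _ _ _ h)
        rw [hgv, o_rot]
        exact h1
      · by_cases hyv : y = v
        · subst hyv
          have h1 := hv z x (N.rot _ _ _ (N.rot _ _ _ h))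
          rw [hgv, o_rot, o_rot]
          exact h1
        · rw [hg x hxv, hg y hyv, hg z hzv]
          exact G.fac x y z (C.f0 x y z h hxv hyv hzv)

theorem stc : StcStmt := stc0 Pool.Agent.SGP.H39.srt

end Pool.Agent.SGY.H79
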